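import Pool.Agent.W133.DQ.StF
import Pool.Agent.W133.DQ.StB

/-!
# Normal scalings
-/

set_option autoImplicit false

open scoped ContDiff
open Set Filter Topology

namespace Pool.Agent.W101.DQ

open Pool.Agent.W133.DQ

lemma flow1 (hF : S_FLOW) : ∃ (Φ : ℝ → Equiv.Perm ℝ) (R : ℝ), 0 < R ∧ Φ 0 = 1 ∧
    (∀ s t, Φ (s + t) = Φ s * Φ t) ∧
    ContDiff ℝ ∞ (fun q : ℝ × ℝ => Φ q.1 q.2) ∧ (∀ t y, R ≤ |y| → Φ t y = y) ∧
    (∀ t y, Φ t y = 0 ↔ y = 0) ∧ (∀ t y, y ≤ 0 → Φ t y ≤ 0) ∧
    (∀ M t y, |t| ≤ M → |y| * Real.exp (M + 1) ≤ 1 → Φ t y = Real.exp t * y) := by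
  let f : ContDiffBump (0 : ℝ) := ⟨2, 3, by norm_num, by norm_num⟩
  set X : ℝ → ℝ := fun y => y * f y with hX
  have hXs : ContDiff ℝ ∞ X := contDiff_id.mul f.contDiff
  have hXc : HasCompactSupport X := f.hasCompactSupport.mul_left
  obtain ⟨K, hK⟩ := ContDiff.lipschitzWith_of_hasCompactSupport hXc hXs (by simp)
  obtain ⟨Φ, h0, hadd, hsm, hder⟩ := hF ℝ X hXs ⟨K, hK⟩
  have hzero : ∀ y, X y = 0 → ∀ t, Φ t y = y := by
    intro y hy t
    have h1 := ODE_solution_unique_univ (v := fun _ => X) (s := fun _ => univ) (K := K)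
      (f := fun s => Φ s y) (g := fun _ => y) (t₀ := 0)
      (fun _ => hK.lipschitzOnWith) (fun t => ⟨hder t y, trivial⟩)
      (fun t => ⟨by rw [hy]; exact hasDerivAt_const t y, trivial⟩) (by simp [h0])
    exact congrFun h1 t
  have hinv : ∀ t y, Φ (-t) (Φ t y) = y := by
    intro t y
    rw [← Equiv.Perm.mul_apply, ← hadd, neg_add_cancel, h0]
    rfl
  have hiff : ∀ t y, Φ t y = 0 ↔ y = 0 := by
    intro t y
    constructor
    · intro h
      rw [← hinv t y, h]
      exact hzero 0 (by simp [hX]) _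
    · rintro rfl
      exact hzero 0 (by simp [hX]) _
  refine ⟨Φ, 3, by norm_num, h0, hadd, hsm, ?_, hiff, ?_, ?_⟩
  · intro t y hy
    apply hzero
    rw [hX]
    simp only
    rw [f.zero_of_le_dist (by simpa using hy), mul_zero]
  · intro t y hy
    rcases hy.lt_or_eq with hy | rfl
    · by_contra hcon
      push Not at hcon
      have hc : Continuous fun s => Φ s y := by
        have h2 : Continuous (fun q : ℝ × ℝ => Φ q.1 q.2) := hsm.continuous
        exact h2.comp (continuous_id.prodMk continuous_const)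
      obtain ⟨s, hs⟩ := mem_range_of_exists_le_of_exists_ge hc
        (c := 0) ⟨0, by simpa [h0] using hy.le⟩ ⟨t, hcon.le⟩
      exact hy.ne ((hiff s y).1 hs)
    · exact ((hiff t 0).2 rfl).le
  · intro M t y ht hy
    have hM : 0 ≤ M := (abs_nonneg t).trans ht
    have h1 := ODE_solution_unique_of_mem_Ioo (v := fun _ => X) (s := fun _ => univ) (K := K)
      (f := fun s => Φ s y) (g := fun s => Real.exp s * y) (t₀ := 0) (a := -(M + 1)) (b := M + 1)
      (fun _ _ => hK.lipschitzOnWith) ⟨by linarith, by linarith⟩ (fun t _ => ⟨hder t y, trivial⟩)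
      (fun s hs => ⟨?_, trivial⟩) (by simp [h0])
    · exact h1 ⟨by linarith [neg_abs_le t], by linarith [le_abs_self t]⟩
    · have h2 : X (Real.exp s * y) = Real.exp s * y := by
        rw [hX]
        simp only
        rw [f.one_of_mem_closedBall, mul_one]
        rw [mem_closedBall_zero_iff, Real.norm_eq_abs, abs_mul, abs_of_pos (Real.exp_pos s)]
        change _ ≤ (2 : ℝ)
        have h3 : Real.exp s ≤ Real.exp (M + 1) := Real.exp_le_exp.2 hs.2.le
        nlinarith [abs_nonneg y]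
      rw [h2]
      exact (Real.hasDerivAt_exp s).mul_const y

theorem scal (hF : S_FLOW) : S_SCAL := by
  obtain ⟨Φ, R, hR, h0, hadd, hsm, hfix, hiff, hneg, hexp⟩ := flow1 hF
  have hinv : ∀ t y, Φ (-t) (Φ t y) = y := by
    intro t y
    rw [← Equiv.Perm.mul_apply, ← hadd, neg_add_cancel, h0]
    rfl
  have hinv' : ∀ t y, Φ t (Φ (-t) y) = y := by
    intro t y
    rw [← Equiv.Perm.mul_apply, ← hadd, add_neg_cancel, h0]
    rfl
  let S : (ℝ → ℝ) → Equiv.Perm HH := fun β =>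
    { toFun := fun p => ⟨(p.1.1, Φ (β p.1.1) p.1.2), hneg _ _ p.2⟩
      invFun := fun p => ⟨(p.1.1, Φ (-β p.1.1) p.1.2), hneg _ _ p.2⟩
      left_inv := fun p => by
        apply Subtype.ext
        exact Prod.ext rfl (hinv _ _)
      right_inv := fun p => by
        apply Subtype.ext
        exact Prod.ext rfl (hinv' _ _) }
  have hS : ∀ β p, (S β p : P2) = (p.1.1, Φ (β p.1.1) p.1.2) := fun _ _ => rfl
  have hSi : ∀ β p, ((S β)⁻¹ p : P2) = (p.1.1, Φ (-β p.1.1) p.1.2) := fun _ _ => rfl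
  have hext : ∀ β : ℝ → ℝ, ContDiff ℝ ∞ β →
      ContDiff ℝ ∞ (fun p : P2 => ((p.1, Φ (β p.1) p.2) : P2)) := by
    intro β hβ
    refine contDiff_fst.prodMk ?_
    exact hsm.comp ((hβ.comp contDiff_fst).prodMk contDiff_snd)
  refine ⟨S, ?_, ?_⟩
  · intro β hβ hper
    refine ⟨⟨⟨_, hext β hβ, fun p => hS β p⟩,
      ⟨_, hext (fun x => -β x) hβ.neg, fun p => hSi β p⟩, ?_, ?_, -R, ?_⟩, ?_⟩
    · intro p
      apply Subtype.ext
      rw [hS, hT_coe, hT_coe, hS]
      simp only [hper]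
    · intro p
      rw [hS]
      exact (hiff _ _).symm
    · intro p hp
      apply Subtype.ext
      rw [hS]
      refine Prod.ext rfl ?_
      apply hfix
      rw [abs_of_neg (by linarith)]
      linarith
    · obtain ⟨M, hM⟩ : ∃ M, ∀ x, |β x| ≤ M := by
        obtain ⟨M, hM⟩ := (isCompact_Icc (a := (0 : ℝ)) (b := 1)).exists_bound_of_continuousOn
          hβ.continuous.continuousOn
        refine ⟨M, fun x => ?_⟩
        obtain ⟨y, hy, hxy⟩ := Function.Periodic.exists_mem_Ico₀ (f := β) (c := 1) hper one_pos x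
        rw [hxy]
        exact hM y ⟨hy.1, hy.2.le⟩
      refine ⟨Real.exp (-(M + 1)), Real.exp_pos _, fun p hp => ?_⟩
      rw [hS, hexp M (β p.1.1) p.1.2 (hM _)]
      rw [abs_of_nonpos p.2]
      have h1 : -p.1.2 * Real.exp (M + 1) ≤ Real.exp (-(M + 1)) * Real.exp (M + 1) :=
        mul_le_mul_of_nonneg_right (by linarith) (Real.exp_pos _).le
      rw [← Real.exp_add, neg_add_cancel, Real.exp_zero] at h1
      exact h1
  · intro β β' _ _ _ _
    ext p : 1
    apply Subtype.ext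
    change ((p.1.1, Φ (β p.1.1 + β' p.1.1) p.1.2) : P2)
      = (p.1.1, Φ (β p.1.1) (Φ (β' p.1.1) p.1.2))
    rw [hadd]
    rfl

end Pool.Agent.W101.DQ
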